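import Pool.Agent.helper95.FR.Spec

set_option autoImplicit false

namespace Pool.Agent.helper95.FR

open scoped commutatorElement
open FirstOrder FirstOrder.Language

universe u

/-- product of terms -/
def FOD_m {α : Type} (s t : Lgrp.Term α) : Lgrp.Term α := Functions.apply₂ (L := Lgrp) grpFunc.mul s t

/-- inverse of a term -/
def FOD_i {α : Type} (s : Lgrp.Term α) : Lgrp.Term α := Functions.apply₁ (L := Lgrp) grpFunc.inv s

theorem FOD_rm {G : Type u} [Group G] {α : Type} (s t : Lgrp.Term α) (v : α → G) :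
    (FOD_m s t).realize v = s.realize v * t.realize v := by
  exact (Term.realize_functions_apply₂ (L := Lgrp) (M := G) (v := v) (f := (id grpFunc.mul : Lgrp.Functions 2)) (t₁ := s) (t₂ := t)).trans rfl

theorem FOD_ri {G : Type u} [Group G] {α : Type} (s : Lgrp.Term α) (v : α → G) :
    (FOD_i s).realize v = (s.realize v)⁻¹ := by
  exact (Term.realize_functions_apply₁ (L := Lgrp) (M := G) (v := v) (f := (id grpFunc.inv : Lgrp.Functions 1)) (t := s)).trans rfl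

/-- conjugate -/
def FOD_c {α : Type} (g x : Lgrp.Term α) : Lgrp.Term α := FOD_m (FOD_m g x) (FOD_i g)

theorem FOD_rc {G : Type u} [Group G] {α : Type} (s t : Lgrp.Term α) (v : α → G) :
    (FOD_c s t).realize v = s.realize v * t.realize v * (s.realize v)⁻¹ := by
  unfold FOD_c
  rw [FOD_rm, FOD_rm, FOD_ri]

/-- commutator -/
def FOD_k {α : Type} (a b : Lgrp.Term α) : Lgrp.Term α := FOD_m (FOD_m (FOD_m a b) (FOD_i a)) (FOD_i b)

theorem FOD_rk {G : Type u} [Group G] {α : Type} (s t : Lgrp.Term α) (v : α → G) :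
    (FOD_k s t).realize v = ⁅s.realize v, t.realize v⁆ := by
  unfold FOD_k
  rw [FOD_rm, FOD_rm, FOD_rm, FOD_ri, FOD_ri, commutatorElement_def]

/-- variable -/
def FOD_v (n : ℕ) (i : Fin n) : Lgrp.Term (Empty ⊕ Fin n) := Term.var (Sum.inr i)

theorem FOD_rv {G : Type u} [Group G] (n : ℕ) (i : Fin n) (v : Empty → G) (w : Fin n → G) :
    (FOD_v n i).realize (Sum.elim v w) = w i := rfl

/-- first sentence -/
def FOD_s1 : Lgrp.Sentence :=
  ∀' ∀' ∃' ∃' ∀' (Term.bdEqual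
    (FOD_m (FOD_m (FOD_i (FOD_m (FOD_c (FOD_v 5 2) (FOD_v 5 0)) (FOD_c (FOD_v 5 3) (FOD_i (FOD_v 5 0))))) (FOD_v 5 1))
      (FOD_c (FOD_v 5 4) (FOD_v 5 0)))
    (FOD_m (FOD_c (FOD_v 5 4) (FOD_v 5 0))
      (FOD_m (FOD_i (FOD_m (FOD_c (FOD_v 5 2) (FOD_v 5 0)) (FOD_c (FOD_v 5 3) (FOD_i (FOD_v 5 0))))) (FOD_v 5 1))))

/-- second sentence -/
def FOD_s2 : Lgrp.Sentence :=
  ∀' ∃' ∃' ∃' (Term.bdEqual (FOD_v 4 0)
    (FOD_m (FOD_c (FOD_v 4 2) (FOD_k (FOD_v 4 0) (FOD_c (FOD_v 4 1) (FOD_v 4 0))))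
      (FOD_c (FOD_v 4 3) (FOD_i (FOD_k (FOD_v 4 0) (FOD_c (FOD_v 4 1) (FOD_v 4 0)))))))

/-- third sentence -/
def FOD_s3 : Lgrp.Sentence :=
  ∀' ∀' ∀' ∀' ((Term.bdEqual (FOD_m (FOD_v 4 1) (FOD_v 4 0)) (FOD_m (FOD_v 4 0) (FOD_v 4 1))).imp
    ((Term.bdEqual (FOD_m (FOD_v 4 2) (FOD_v 4 0)) (FOD_m (FOD_v 4 0) (FOD_v 4 2))).imp
      (Term.bdEqual (FOD_m (FOD_k (FOD_v 4 1) (FOD_v 4 2)) (FOD_c (FOD_v 4 3) (FOD_v 4 0)))
        (FOD_m (FOD_c (FOD_v 4 3) (FOD_v 4 0)) (FOD_k (FOD_v 4 1) (FOD_v 4 2))))))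

theorem FOD_r1 (G : Type u) [Group G] : G ⊨ FOD_s1 ↔ ∀ x y : G, ∃ h k : G, ∀ g : G,
    (h * x * h⁻¹ * (k * x⁻¹ * k⁻¹))⁻¹ * y * (g * x * g⁻¹) = g * x * g⁻¹ * ((h * x * h⁻¹ * (k * x⁻¹ * k⁻¹))⁻¹ * y) := by
  unfold FOD_s1 Sentence.Realize Formula.Realize
  simp only [BoundedFormula.realize_all, BoundedFormula.realize_ex, BoundedFormula.realize_bdEqual, FOD_rm, FOD_ri, FOD_rc, FOD_rv]
  rfl

theorem FOD_r2 (G : Type u) [Group G] : G ⊨ FOD_s2 ↔ ∀ x : G, ∃ g h k : G,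
    x = h * ⁅x, g * x * g⁻¹⁆ * h⁻¹ * (k * ⁅x, g * x * g⁻¹⁆⁻¹ * k⁻¹) := by
  unfold FOD_s2 Sentence.Realize Formula.Realize
  simp only [BoundedFormula.realize_all, BoundedFormula.realize_ex, BoundedFormula.realize_bdEqual, FOD_rm, FOD_ri, FOD_rc, FOD_rk, FOD_rv]
  rfl

theorem FOD_r3 (G : Type u) [Group G] : G ⊨ FOD_s3 ↔ ∀ x a b g : G, a * x = x * a → b * x = x * b →
    ⁅a, b⁆ * (g * x * g⁻¹) = g * x * g⁻¹ * ⁅a, b⁆ := by
  unfold FOD_s3 Sentence.Realize Formula.Realize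
  simp only [BoundedFormula.realize_all, BoundedFormula.realize_imp, BoundedFormula.realize_bdEqual, FOD_rm, FOD_rc, FOD_rk, FOD_rv]
  rfl

theorem FOD : FOD_stmt.{u} := by
  refine ⟨{FOD_s1, FOD_s2, FOD_s3}, ?_⟩
  intro G _
  rw [Theory.model_iff]
  constructor
  · intro H
    have h1 := (FOD_r1 G).1 (H _ (by simp))
    have h2 := (FOD_r2 G).1 (H _ (by simp))
    have h3 := (FOD_r3 G).1 (H _ (by simp))
    refine ⟨?_, ?_, ?_⟩
    · intro x _ y _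
      obtain ⟨h, k, hk⟩ := h1 x y
      exact ⟨_, ⟨h, Subgroup.mem_top _, k, Subgroup.mem_top _, rfl⟩, fun g _ => hk g⟩
    · intro x _
      obtain ⟨g, h, k, hk⟩ := h2 x
      exact ⟨g, Subgroup.mem_top _, h, Subgroup.mem_top _, k, Subgroup.mem_top _, hk⟩
    · intro x _ a _ b _ ha hb g _
      exact h3 x a b g ha hb
  · intro K φ hφ
    simp only [Set.mem_insert_iff, Set.mem_singleton_iff] at hφ
    rcases hφ with rfl | rfl | rfl
    · rw [FOD_r1]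
      intro x y
      obtain ⟨u, ⟨h, _, k, _, rfl⟩, hP⟩ := K.A1 x (Subgroup.mem_top _) y (Subgroup.mem_top _)
      exact ⟨h, k, fun g => hP g (Subgroup.mem_top _)⟩
    · rw [FOD_r2]
      intro x
      obtain ⟨g, _, h, _, k, _, hh⟩ := K.A2 x (Subgroup.mem_top _)
      exact ⟨g, h, k, hh⟩
    · rw [FOD_r3]
      intro x a b g ha hb
      exact K.A3 x (Subgroup.mem_top _) a (Subgroup.mem_top _) b (Subgroup.mem_top _) ha hb g (Subgroup.mem_top _)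

end Pool.Agent.helper95.FR
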